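import Pool.Agent.H429P.Final

/-!
# A quadrilateral without a threshold for unique addresses

Definitions (all in `Pool.Agent.H429P.Defs`): `IsVertices p` says that the points `p i` are
distinct and are exactly the vertices of their convex hull, `IsAttractor p lam S` that `S` is a
nonempty compact set with `S = ⋃ i, (lam S + (1 - lam) p i)`, `IsAddress p lam e x` that
`x = (1 - lam) ∑ lam ^ n p (e n)`, and `IsThreshold p ls` that `ls` has both properties asked for.

The quadrilateral has the vertices `(0, 0)`, `(1, 0)`, `(561/5000, 443902490279/500000000000)` and
`(0, 1)`. At the ratio `19/30` no point but the vertices has exactly one address; at the larger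
ratio `7/11` the point `(11718/36061, 3773/36061)` has exactly one address.
-/

namespace Pool.Agent.Results.MP_43eaec_an.NoThreshold

open H429P

/-- There are four points in the plane, exactly the vertices of a convex polygon, such that at the
ratio `19/30` no point of the attractor except the vertices has exactly one address, while at the
larger ratio `7/11` some point of the attractor which is not a vertex has exactly one address;
hence no threshold exists. (Every ratio in `(0, 1)` has exactly one attractor.) -/
theorem result :
    ∃ p : Fin 4 → EuclideanSpace ℝ (Fin 2), IsVertices p ∧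
      (∀ lam, 0 < lam → lam < 1 → ∃! S, IsAttractor p lam S) ∧
      (∀ S, IsAttractor p (19 / 30) S → ∀ x ∈ S, x ∉ Set.range p →
        ¬ ∃! e, IsAddress p (19 / 30) e x) ∧
      (∀ S, IsAttractor p (7 / 11) S → ∃ x ∈ S, x ∉ Set.range p ∧
        ∃! e, IsAddress p (7 / 11) e x) ∧
      ¬ ∃ ls, 0 < ls ∧ ls < 1 ∧ IsThreshold p ls :=
  final_all

end Pool.Agent.Results.MP_43eaec_an.NoThreshold
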